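import Pool.Agent.Helper56.RZ.GoalsD

/-!
# Project RZ (MP_f32c9c_an), packet DT: the determinant identity
-/

set_option autoImplicit false

namespace Pool.Agent.Helper25.RZ

open Pool.Agent.Helper56.RZ

theorem dt_mul {K : ℕ} (A B : End K) : dt (A * B) = dt A * dt B := by
  unfold dt
  rw [← LinearMap.det_comp]
  rfl

theorem dt_one {K : ℕ} : dt (1 : End K) = 1 := by
  unfold dt
  exact LinearMap.det_id

theorem dt_nil {K : ℕ} (A B : End K) (h : B * A = 0) : dt (1 + A * B) = 1 := by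
  have b := (EuclideanSpace.basisFun (Fin K) ℝ).toBasis
  have key : ∀ M N : End K, dt (1 + M * N) =
      (1 + LinearMap.toMatrix b b (M : E K →ₗ[ℝ] E K) *
        LinearMap.toMatrix b b (N : E K →ₗ[ℝ] E K)).det := by
    intro M N
    unfold dt
    rw [← LinearMap.det_toMatrix b]
    congr 1
    have h1 : ((1 + M * N : End K) : E K →ₗ[ℝ] E K) =
        LinearMap.id + (M : E K →ₗ[ℝ] E K) ∘ₗ (N : E K →ₗ[ℝ] E K) := rfl
    rw [h1, map_add, LinearMap.toMatrix_id, LinearMap.toMatrix_comp b b b]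
  rw [key A B, Matrix.det_one_add_mul_comm, ← key B A, h, add_zero, dt_one]

/-- the identity in a ring with a multiplicative function -/
theorem core {R : Type*} [Ring R] (dt : R → ℝ) (hmul : ∀ a b, dt (a * b) = dt a * dt b)
    (hone : dt 1 = 1) (hnil : ∀ a b, b * a = 0 → dt (1 + a * b) = 1)
    (p q : Fin 3 → R) (V W G G' : R)
    (pp : ∀ i j, p i * p j = if i = j then p i else 0) (ps : p 0 + p 1 + p 2 = 1)
    (qq : ∀ i j, q i * q j = if i = j then q i else 0)
    (hV : V = q 0 * p 0 + q 1 * p 1 + q 2 * p 2) (hWV : W * V = 1) (hVW : V * W = 1)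
    (g1 : G * p 1 = G) (g2 : p 1 * G = p 1) (g3 : p 0 * G = 0) (g4 : q 2 * G = 0)
    (k1 : G' * q 1 = G') (k2 : q 1 * G' = q 1) (k3 : q 0 * G' = 0) (k4 : p 2 * G' = 0) :
    dt (p 1 * G' * q 1 * G + 1 - p 1) * dt (p 2 * q 2 * p 2 + 1 - p 2) =
      dt (p 0 * q 0 * p 0 + 1 - p 0) := by
  have p00 : p 0 * p 0 = p 0 := by rw [pp]; rfl
  have p11 : p 1 * p 1 = p 1 := by rw [pp]; rfl
  have p22 : p 2 * p 2 = p 2 := by rw [pp]; rfl
  have p01 : p 0 * p 1 = 0 := by rw [pp]; rfl
  have p02 : p 0 * p 2 = 0 := by rw [pp]; rfl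
  have p10 : p 1 * p 0 = 0 := by rw [pp]; rfl
  have p12 : p 1 * p 2 = 0 := by rw [pp]; rfl
  have p20 : p 2 * p 0 = 0 := by rw [pp]; rfl
  have p21 : p 2 * p 1 = 0 := by rw [pp]; rfl
  have q00 : q 0 * q 0 = q 0 := by rw [qq]; rfl
  have q11 : q 1 * q 1 = q 1 := by rw [qq]; rfl
  have q22 : q 2 * q 2 = q 2 := by rw [qq]; rfl
  have q01 : q 0 * q 1 = 0 := by rw [qq]; rfl
  have q02 : q 0 * q 2 = 0 := by rw [qq]; rfl
  have q10 : q 1 * q 0 = 0 := by rw [qq]; rfl
  have q12 : q 1 * q 2 = 0 := by rw [qq]; rfl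
  have q20 : q 2 * q 0 = 0 := by rw [qq]; rfl
  have q21 : q 2 * q 1 = 0 := by rw [qq]; rfl
  have v0 : V * p 0 = q 0 * p 0 := by
    rw [hV]; simp only [add_mul, mul_assoc, p00, p10, p20, mul_zero, add_zero, zero_add]
  have v1 : V * p 1 = q 1 * p 1 := by
    rw [hV]; simp only [add_mul, mul_assoc, p01, p11, p21, mul_zero, add_zero, zero_add]
  have v2 : V * p 2 = q 2 * p 2 := by
    rw [hV]; simp only [add_mul, mul_assoc, p02, p12, p22, mul_zero, add_zero, zero_add]
  have w0 : q 0 * V = q 0 * p 0 := by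
    rw [hV]; simp only [mul_add, ← mul_assoc, q00, q01, q02, zero_mul, add_zero, zero_add]
  have w1 : q 1 * V = q 1 * p 1 := by
    rw [hV]; simp only [mul_add, ← mul_assoc, q10, q11, q12, zero_mul, add_zero, zero_add]
  have w2 : q 2 * V = q 2 * p 2 := by
    rw [hV]; simp only [mul_add, ← mul_assoc, q20, q21, q22, zero_mul, add_zero, zero_add]
  have gen : ∀ a b : R, V * a = b * V → W * b = a * W := by
    intro a b h
    calc W * b = W * (b * V) * W := by rw [mul_assoc, mul_assoc, hVW, mul_one]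
      _ = W * (V * a) * W := by rw [h]
      _ = a * W := by rw [← mul_assoc, hWV, one_mul]
  have x0 : W * q 0 = p 0 * W := gen _ _ (by rw [v0, w0])
  have x1 : W * q 1 = p 1 * W := gen _ _ (by rw [v1, w1])
  have x2 : W * q 2 = p 2 * W := gen _ _ (by rw [v2, w2])
  have y0 : p 0 * W * p 0 = p 0 := by rw [← x0, mul_assoc, ← v0, ← mul_assoc, hWV, one_mul]
  have y1 : p 1 * W * p 1 = p 1 := by rw [← x1, mul_assoc, ← v1, ← mul_assoc, hWV, one_mul]
  have y2 : p 2 * W * p 2 = p 2 := by rw [← x2, mul_assoc, ← v2, ← mul_assoc, hWV, one_mul]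
  -- `G`
  have G1 : G = p 1 + p 2 * G := by
    calc G = (p 0 + p 1 + p 2) * G := by rw [ps, one_mul]
      _ = _ := by rw [add_mul, add_mul, g2, g3, zero_add]
  have G2 : p 2 * W * G = 0 := by rw [← x2, mul_assoc, g4, mul_zero]
  have G3 : p 2 * W * p 1 + p 2 * G = 0 := by
    calc p 2 * W * p 1 + p 2 * G = p 2 * W * p 1 + p 2 * W * p 2 * G := by rw [y2]
      _ = p 2 * W * (p 1 + p 2 * G) := by simp only [mul_add, mul_assoc]
      _ = 0 := by rw [← G1, G2]
  have G4 : p 1 * W * G = p 1 + p 1 * W * p 2 * G := by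
    calc p 1 * W * G = p 1 * W * (p 1 + p 2 * G) := by rw [← G1]
      _ = _ := by simp only [mul_add, ← mul_assoc, y1]
  -- `Th`
  set Th : R := G' * V with hTh
  have T1 : Th * p 1 = Th := by
    rw [hTh, mul_assoc, v1, ← w1, ← mul_assoc, k1]
  have T2 : p 1 * W * Th = p 1 := by
    rw [hTh, ← x1]
    calc W * q 1 * (G' * V) = W * (q 1 * G') * V := by simp only [mul_assoc]
      _ = W * (q 1 * V) := by rw [k2, mul_assoc]
      _ = p 1 := by rw [w1, ← v1, ← mul_assoc, hWV, one_mul]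
  have T3 : p 0 * W * Th = 0 := by
    rw [hTh, ← x0]
    calc W * q 0 * (G' * V) = W * (q 0 * G') * V := by simp only [mul_assoc]
      _ = 0 := by rw [k3, mul_zero, zero_mul]
  have T4 : p 2 * Th = 0 := by rw [hTh, ← mul_assoc, k4, zero_mul]
  have T5 : Th * W = G' := by rw [hTh, mul_assoc, hVW, mul_one]
  have T6 : Th = p 0 * Th + p 1 * Th := by
    calc Th = (p 0 + p 1 + p 2) * Th := by rw [ps, one_mul]
      _ = _ := by rw [add_mul, add_mul, T4, add_zero]
  have T7 : p 0 * Th + p 0 * W * p 1 * Th = 0 := by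
    calc p 0 * Th + p 0 * W * p 1 * Th = p 0 * W * p 0 * Th + p 0 * W * p 1 * Th := by rw [y0]
      _ = p 0 * W * (p 0 * Th + p 1 * Th) := by simp only [mul_add, mul_assoc]
      _ = 0 := by rw [← T6, T3]
  have T8 : p 1 * Th + p 1 * W * p 0 * Th = p 1 := by
    calc p 1 * Th + p 1 * W * p 0 * Th = p 1 * W * p 1 * Th + p 1 * W * p 0 * Th := by rw [y1]
      _ = p 1 * W * (p 0 * Th + p 1 * Th) := by simp only [mul_add, mul_assoc]; abel
      _ = p 1 := by rw [← T6, T2]
  -- the first determinant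
  have A1 : p 1 * G' * q 1 * G = p 1 * Th * (p 1 * W * G) := by
    rw [← T5, ← x1]
    simp only [mul_assoc]
  have A2 : dt (p 1 * G' * q 1 * G + 1 - p 1) =
      dt (p 1 * Th + 1 - p 1) * dt (1 + p 1 * W * p 2 * G) := by
    rw [← hmul, A1]
    congr 1
    have h1 : p 1 * Th * (p 1 * W * G) = p 1 * Th + p 1 * Th * (p 1 * W * p 2 * G) := by
      rw [G4, mul_add, mul_assoc (p 1) Th (p 1), T1]
    have h2 : p 1 * (p 1 * W * p 2 * G) = p 1 * W * p 2 * G := by
      simp only [← mul_assoc, p11]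
    rw [h1]
    calc p 1 * Th + p 1 * Th * (p 1 * W * p 2 * G) + 1 - p 1
        = p 1 * Th + 1 - p 1 + p 1 * Th * (p 1 * W * p 2 * G) := by abel
      _ = p 1 * Th + 1 - p 1 + (p 1 * Th * (p 1 * W * p 2 * G) + p 1 * W * p 2 * G -
          p 1 * (p 1 * W * p 2 * G)) := by rw [h2]; abel
      _ = (p 1 * Th + 1 - p 1) * (1 + p 1 * W * p 2 * G) := by
          simp only [mul_add, sub_mul, add_mul, mul_one, one_mul]
  -- part (i)
  have X1 : (1 - p 0) * W * (1 - p 0) + p 0 = 1 + p 1 * W * p 2 + p 2 * W * p 1 := by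
    have e : (1 : R) - p 0 = p 1 + p 2 := by rw [← ps]; abel
    rw [e]
    calc (p 1 + p 2) * W * (p 1 + p 2) + p 0
        = p 1 * W * p 1 + p 1 * W * p 2 + p 2 * W * p 1 + p 2 * W * p 2 + p 0 := by
          simp only [mul_add, add_mul]; abel
      _ = (p 0 + p 1 + p 2) + p 1 * W * p 2 + p 2 * W * p 1 := by rw [y1, y2]; abel
      _ = _ := by rw [ps]
  have X2 : dt ((1 - p 0) * W * (1 - p 0) + p 0) = dt (1 + p 1 * W * p 2 * G) := by
    have n1 : dt (1 + p 2 * G) = 1 := by
      have := hnil (p 2 * G) (p 1) (by rw [← mul_assoc, p12, zero_mul])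
      rwa [mul_assoc, g1] at this
    have n2 : dt (1 + p 1 * W * p 2) = 1 := by
      exact hnil (p 1 * W) (p 2) (by rw [← mul_assoc, p21, zero_mul])
    have e : ((1 - p 0) * W * (1 - p 0) + p 0) * (1 + p 2 * G) =
        (1 + p 1 * W * p 2) * (1 + p 1 * W * p 2 * G) := by
      rw [X1]
      have s1 : p 1 * W * p 2 * (p 2 * G) = p 1 * W * p 2 * G := by
        rw [← mul_assoc, mul_assoc (p 1 * W), p22]
      have s2 : p 2 * W * p 1 * (p 2 * G) = 0 := by
        rw [← mul_assoc, mul_assoc (p 2 * W), p12, mul_zero, zero_mul]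
      have s3 : p 1 * W * p 2 * (p 1 * W * p 2 * G) = 0 := by
        have : p 1 * W * p 2 * (p 1 * W * p 2 * G) = p 1 * W * (p 2 * p 1) * (W * p 2 * G) := by
          simp only [mul_assoc]
        rw [this, p21, mul_zero, zero_mul]
      calc (1 + p 1 * W * p 2 + p 2 * W * p 1) * (1 + p 2 * G)
          = 1 + p 1 * W * p 2 + (p 2 * W * p 1 + p 2 * G) + p 1 * W * p 2 * (p 2 * G) +
            p 2 * W * p 1 * (p 2 * G) := by
            simp only [mul_add, add_mul, mul_one, one_mul]; abel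
        _ = 1 + p 1 * W * p 2 + p 1 * W * p 2 * G + p 1 * W * p 2 * (p 1 * W * p 2 * G) := by
            rw [G3, s1, s2, s3, add_zero, add_zero, add_zero]
        _ = _ := by
            simp only [mul_add, add_mul, mul_one, one_mul]; abel
    have := congrArg dt e
    rw [hmul, hmul, n1, n2, mul_one, one_mul] at this
    exact this
  -- part (ii)
  have Y1 : (1 - p 2) * W * (1 - p 2) + p 2 = 1 + p 0 * W * p 1 + p 1 * W * p 0 := by
    have e : (1 : R) - p 2 = p 0 + p 1 := by rw [← ps]; abel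
    rw [e]
    calc (p 0 + p 1) * W * (p 0 + p 1) + p 2
        = p 0 * W * p 0 + p 0 * W * p 1 + p 1 * W * p 0 + p 1 * W * p 1 + p 2 := by
          simp only [mul_add, add_mul]; abel
      _ = (p 0 + p 1 + p 2) + p 0 * W * p 1 + p 1 * W * p 0 := by rw [y0, y1]; abel
      _ = _ := by rw [ps]
  have Y2 : dt ((1 - p 2) * W * (1 - p 2) + p 2) * dt (p 1 * Th + 1 - p 1) = 1 := by
    have n1 : dt (1 + p 0 * Th) = 1 := by
      have := hnil (p 0 * Th) (p 1) (by rw [← mul_assoc, p10, zero_mul])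
      rwa [mul_assoc, T1] at this
    have n2 : dt (1 + p 1 * W * p 0) = 1 :=
      hnil (p 1 * W) (p 0) (by rw [← mul_assoc, p01, zero_mul])
    have e1 : (p 1 * Th + 1 - p 1) * (1 + p 0 * Th) = Th + 1 - p 1 := by
      have s1 : p 1 * Th * (p 0 * Th) = 0 := by
        have : p 1 * Th * (p 0 * Th) = p 1 * (Th * p 1) * (p 0 * Th) := by rw [T1]
        rw [this]
        have : p 1 * (Th * p 1) * (p 0 * Th) = p 1 * Th * (p 1 * p 0) * Th := by
          simp only [mul_assoc]
        rw [this, p10, mul_zero, zero_mul]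
      have s2 : p 1 * (p 0 * Th) = 0 := by rw [← mul_assoc, p10, zero_mul]
      calc (p 1 * Th + 1 - p 1) * (1 + p 0 * Th)
          = (p 0 * Th + p 1 * Th) + 1 - p 1 + p 1 * Th * (p 0 * Th) - p 1 * (p 0 * Th) := by
            simp only [mul_add, add_mul, sub_mul, mul_one, one_mul]; abel
        _ = _ := by rw [← T6, s1, s2]; abel
    have e2 : ((1 - p 2) * W * (1 - p 2) + p 2) * (Th + 1 - p 1) = 1 + p 1 * W * p 0 := by
      rw [Y1]
      have s1 : p 0 * W * p 1 * Th + p 0 * W * p 1 - p 0 * W * p 1 * p 1 = p 0 * W * p 1 * Th := by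
        rw [mul_assoc (p 0 * W) (p 1) (p 1), p11]; abel
      have s2 : p 1 * W * p 0 * p 1 = 0 := by
        rw [mul_assoc (p 1 * W) (p 0) (p 1), p01, mul_zero]
      calc (1 + p 0 * W * p 1 + p 1 * W * p 0) * (Th + 1 - p 1)
          = Th + 1 - p 1 + (p 0 * W * p 1 * Th + p 0 * W * p 1 - p 0 * W * p 1 * p 1) +
            (p 1 * W * p 0 * Th + p 1 * W * p 0 - p 1 * W * p 0 * p 1) := by
            simp only [mul_add, add_mul, mul_sub, mul_one, one_mul]; abel
        _ = (p 0 * Th + p 1 * Th) + 1 - p 1 + p 0 * W * p 1 * Th +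
            (p 1 * W * p 0 * Th + p 1 * W * p 0) := by
            rw [s1, s2, sub_zero, ← T6]
        _ = (p 0 * Th + p 0 * W * p 1 * Th) + (p 1 * Th + p 1 * W * p 0 * Th) + 1 - p 1 +
            p 1 * W * p 0 := by abel
        _ = _ := by rw [T7, T8]; abel
    have h1 := congrArg dt e1
    have h2 := congrArg dt e2
    rw [hmul, n1, mul_one] at h1
    rw [hmul, n2] at h2
    rw [h1, h2]
  -- part (iii)
  have Z : ∀ P Q : R, P * P = P → V * P = Q * P →
      dt W * dt (P * Q * P + 1 - P) = dt ((1 - P) * W * (1 - P) + P) := by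
    intro P Q hPP hVP
    have c1 : (1 - P) * P = 0 := by rw [sub_mul, one_mul, hPP, sub_self]
    have c2 : P * (1 - P) = 0 := by rw [mul_sub, mul_one, hPP, sub_self]
    have c3 : (1 - P) * (1 - P) = 1 - P := by rw [mul_sub, mul_one, c1, sub_zero]
    have n1 : dt (1 + P * W * (1 - P)) = 1 :=
      hnil (P * W) (1 - P) (by rw [← mul_assoc, c1, zero_mul])
    have n2 : dt (1 + (1 - P) * V * P) = 1 :=
      hnil ((1 - P) * V) P (by rw [← mul_assoc, c2, zero_mul])
    have e1 : W * (V * P + 1 - P) =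
        ((1 - P) * W * (1 - P) + P) * (1 + P * W * (1 - P)) := by
      have s1 : (1 - P) * W * (1 - P) * (P * W * (1 - P)) = 0 := by
        have : (1 - P) * W * (1 - P) * (P * W * (1 - P)) =
            (1 - P) * W * ((1 - P) * P) * (W * (1 - P)) := by simp only [mul_assoc]
        rw [this, c1, mul_zero, zero_mul]
      have s2 : P * (P * W * (1 - P)) = P * W * (1 - P) := by
        rw [← mul_assoc, ← mul_assoc, hPP]
      calc W * (V * P + 1 - P) = W * V * P + W * (1 - P) := by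
            simp only [mul_add, mul_sub, mul_one, ← mul_assoc]; abel
        _ = P + W * (1 - P) := by rw [hWV, one_mul]
        _ = (1 - P) * W * (1 - P) + P + P * W * (1 - P) := by
            simp only [sub_mul, one_mul]; abel
        _ = ((1 - P) * W * (1 - P) + P) * (1 + P * W * (1 - P)) := by
            rw [mul_add, mul_one, add_mul ((1 - P) * W * (1 - P)) P, s1, s2, zero_add]
    have e2 : V * P + 1 - P = (P * Q * P + 1 - P) * (1 + (1 - P) * V * P) := by
      have s1 : P * Q * P * ((1 - P) * V * P) = 0 := by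
        have : P * Q * P * ((1 - P) * V * P) = P * Q * (P * (1 - P)) * (V * P) := by
          simp only [mul_assoc]
        rw [this, c2, mul_zero, zero_mul]
      have s2 : (1 - P) * ((1 - P) * V * P) = (1 - P) * V * P := by
        rw [← mul_assoc, ← mul_assoc, c3]
      have s3 : P * Q * P = P * V * P := by rw [mul_assoc, ← hVP, mul_assoc]
      calc V * P + 1 - P = P * V * P + (1 - P) + (1 - P) * V * P := by
            simp only [sub_mul, one_mul]; abel
        _ = P * Q * P + (1 - P) + (P * Q * P * ((1 - P) * V * P) +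
            (1 - P) * ((1 - P) * V * P)) := by rw [s1, s2, s3, zero_add]
        _ = (P * Q * P + (1 - P)) * (1 + (1 - P) * V * P) := by
            rw [mul_add, mul_one, add_mul (P * Q * P) (1 - P) ((1 - P) * V * P)]
        _ = _ := by rw [add_sub_assoc]
    have h1 := congrArg dt e1
    have h2 := congrArg dt e2
    rw [hmul, hmul, n1, mul_one] at h1
    rw [hmul, n2, mul_one] at h2
    rw [← h2, h1]
  have Z0 := Z (p 0) (q 0) p00 v0
  have Z2 := Z (p 2) (q 2) p22 v2
  have hW0 : dt W ≠ 0 := by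
    intro h
    have := congrArg dt hWV
    rw [hmul, h, zero_mul, hone] at this
    exact zero_ne_one this
  refine mul_left_cancel₀ hW0 ?_
  rw [Z0, X2, A2]
  calc dt W * (dt (p 1 * Th + 1 - p 1) * dt (1 + p 1 * W * p 2 * G) *
        dt (p 2 * q 2 * p 2 + 1 - p 2))
      = (dt W * dt (p 2 * q 2 * p 2 + 1 - p 2)) * dt (p 1 * Th + 1 - p 1) *
        dt (1 + p 1 * W * p 2 * G) := by ring
    _ = _ := by rw [Z2, Y2, one_mul]

theorem dt : StmtDT := by
  intro K P Q G G' hP hQ hU g1 g2 g3 g4 k1 k2 k3 k4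
  obtain ⟨u, hu⟩ := hU
  exact core (R := End K) Pool.Agent.Helper56.RZ.dt dt_mul dt_one dt_nil P Q (u : End K)
    ((u⁻¹ : (End K)ˣ) : End K) G G' hP.proj hP.sum hQ.proj hu (Units.inv_mul u) (Units.mul_inv u)
    g1 g2 g3 g4 k1 k2 k3 k4

end Pool.Agent.Helper25.RZ
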